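import Pool.Agent.U174.AK.Stm

/-!
# Project AK, package GAM: in countably saturated structures inclusion of theories gives the game
-/

set_option autoImplicit false
set_option linter.style.haveILetI false

namespace Pool.Agent.U618.AK.GAM

open Pool.Agent.U174.AK

/-- operations on formulas, without negation -/
structure Syn' (P : Type → Type) where
  ren : ∀ {Y Z : Type}, (Y → Z) → P Y → P Z
  tt : ∀ {Y : Type}, P Y
  ff : ∀ {Y : Type}, P Y
  and : ∀ {Y : Type}, P Y → P Y → P Y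
  or : ∀ {Y : Type}, P Y → P Y → P Y
  cnt : ∀ Y : Type, Countable Y → Countable (P Y)

/-- their meaning -/
structure Sem' {P : Type → Type} (S : Syn' P) {A : Type} (h : ∀ Y : Type, P Y → (Y → A) → Prop) :
    Prop where
  ren : ∀ {Y Z : Type} (g : Y → Z) (φ : P Y) (e : Z → A), h Z (S.ren g φ) e ↔ h Y φ (e ∘ g)
  tt : ∀ {Y : Type} (e : Y → A), h Y S.tt e
  ff : ∀ {Y : Type} (e : Y → A), ¬ h Y S.ff e
  and : ∀ {Y : Type} (φ ψ : P Y) (e : Y → A), h Y (S.and φ ψ) e ↔ h Y φ e ∧ h Y ψ e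
  or : ∀ {Y : Type} (φ ψ : P Y) (e : Y → A), h Y (S.or φ ψ) e ↔ h Y φ e ∨ h Y ψ e
  supp : ∀ {Y : Type} (φ : P Y), ∃ s : Finset Y, ∀ e e' : Y → A, (∀ y ∈ s, e y = e' y) →
    (h Y φ e ↔ h Y φ e')

/-- the operations on the formulas with one more block -/
def nextSyn {P : Type → Type} (S : Syn' P) : Syn' (fun Y => Σ b : ℕ, P (Y ⊕ Fin b)) where
  ren g φ := ⟨φ.1, S.ren (Sum.map g id) φ.2⟩
  tt := ⟨0, S.tt⟩
  ff := ⟨0, S.ff⟩
  and φ ψ := ⟨φ.1 + ψ.1, S.and (S.ren (Sum.map id (Fin.castAdd ψ.1)) φ.2)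
    (S.ren (Sum.map id (Fin.natAdd φ.1)) ψ.2)⟩
  or φ ψ := ⟨φ.1 + ψ.1, S.or (S.ren (Sum.map id (Fin.castAdd ψ.1)) φ.2)
    (S.ren (Sum.map id (Fin.natAdd φ.1)) ψ.2)⟩
  cnt Y hY := by
    haveI := hY
    haveI : ∀ b : ℕ, Countable (P (Y ⊕ Fin b)) := fun b => S.cnt _ inferInstance
    exact inferInstance

/-- existential block -/
def hE {P : Type → Type} {A : Type} (h : ∀ Y : Type, P Y → (Y → A) → Prop) (Y : Type)
    (φ : Σ b : ℕ, P (Y ⊕ Fin b)) (e : Y → A) : Prop :=
  ∃ e' : Fin φ.1 → A, h _ φ.2 (Sum.elim e e')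

/-- universal block -/
def hU {P : Type → Type} {A : Type} (h : ∀ Y : Type, P Y → (Y → A) → Prop) (Y : Type)
    (φ : Σ b : ℕ, P (Y ⊕ Fin b)) (e : Y → A) : Prop :=
  ∀ e' : Fin φ.1 → A, h _ φ.2 (Sum.elim e e')

section
variable {P : Type → Type} {S : Syn' P} {A : Type} {h : ∀ Y : Type, P Y → (Y → A) → Prop}

theorem ren_left (hS : Sem' S h) {Y : Type} {m k : ℕ} (φ : P (Y ⊕ Fin m)) (e : Y → A)
    (e' : Fin (m + k) → A) : h _ (S.ren (Sum.map id (Fin.castAdd k)) φ) (Sum.elim e e') ↔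
      h _ φ (Sum.elim e (e' ∘ Fin.castAdd k)) := by
  rw [hS.ren, Sum.elim_comp_map, Function.comp_id]

theorem ren_right (hS : Sem' S h) {Y : Type} {m k : ℕ} (φ : P (Y ⊕ Fin k)) (e : Y → A)
    (e' : Fin (m + k) → A) : h _ (S.ren (Sum.map id (Fin.natAdd m)) φ) (Sum.elim e e') ↔
      h _ φ (Sum.elim e (e' ∘ Fin.natAdd m)) := by
  rw [hS.ren, Sum.elim_comp_map, Function.comp_id]

theorem ren_mid (hS : Sem' S h) {Y Z : Type} {m : ℕ} (g : Y → Z) (φ : P (Y ⊕ Fin m)) (e : Z → A)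
    (e' : Fin m → A) : h _ (S.ren (Sum.map g id) φ) (Sum.elim e e') ↔
      h _ φ (Sum.elim (e ∘ g) e') := by
  rw [hS.ren, Sum.elim_comp_map, Function.comp_id]

theorem app_left {m k : ℕ} (u : Fin m → A) (v : Fin k → A) :
    Fin.append u v ∘ Fin.castAdd k = u := by
  funext i
  exact Fin.append_left u v i

theorem app_right {m k : ℕ} (u : Fin m → A) (v : Fin k → A) :
    Fin.append u v ∘ Fin.natAdd m = v := by
  funext i
  exact Fin.append_right u v i

theorem supp_next {Y : Type} {m : ℕ} {s : Finset (Y ⊕ Fin m)} {e e' : Y → A}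
    (hs : ∀ y ∈ s.toLeft, e y = e' y) (e'' : Fin m → A) :
    ∀ y ∈ s, Sum.elim e e'' y = Sum.elim e' e'' y := by
  rintro (y | y) hy
  · exact hs y (Finset.mem_toLeft.2 hy)
  · rfl

theorem sem_hE [Nonempty A] (hS : Sem' S h) : Sem' (nextSyn S) (hE h) where
  ren g φ e := exists_congr fun e' => ren_mid hS g φ.2 e e'
  tt e := ⟨fun _ => Classical.arbitrary A, hS.tt _⟩
  ff e := by
    rintro ⟨e', he⟩
    exact hS.ff _ he
  and φ ψ e := by
    constructor
    · rintro ⟨e', he⟩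
      have h1 := (hS.and _ _ _).1 he
      exact ⟨⟨_, (ren_left hS _ _ _).1 h1.1⟩, ⟨_, (ren_right hS _ _ _).1 h1.2⟩⟩
    · rintro ⟨⟨e1, h1⟩, ⟨e2, h2⟩⟩
      refine ⟨Fin.append e1 e2, (hS.and _ _ _).2 ⟨(ren_left hS _ _ _).2 ?_,
        (ren_right hS _ _ _).2 ?_⟩⟩
      · rw [app_left]
        exact h1
      · rw [app_right]
        exact h2
  or φ ψ e := by
    constructor
    · rintro ⟨e', he⟩
      rcases (hS.or _ _ _).1 he with h1 | h1
      · exact Or.inl ⟨_, (ren_left hS _ _ _).1 h1⟩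
      · exact Or.inr ⟨_, (ren_right hS _ _ _).1 h1⟩
    · rintro (⟨e1, h1⟩ | ⟨e2, h2⟩)
      · refine ⟨Fin.append e1 (fun _ => Classical.arbitrary A), (hS.or _ _ _).2
          (Or.inl ((ren_left hS _ _ _).2 ?_))⟩
        rw [app_left]
        exact h1
      · refine ⟨Fin.append (fun _ => Classical.arbitrary A) e2, (hS.or _ _ _).2
          (Or.inr ((ren_right hS _ _ _).2 ?_))⟩
        rw [app_right]
        exact h2
  supp φ := by
    obtain ⟨s, hs⟩ := hS.supp φ.2
    refine ⟨s.toLeft, fun e e' he => exists_congr fun e'' => hs _ _ (supp_next he e'')⟩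

theorem sem_hU [Nonempty A] (hS : Sem' S h) : Sem' (nextSyn S) (hU h) where
  ren g φ e := forall_congr' fun e' => ren_mid hS g φ.2 e e'
  tt e := fun _ => hS.tt _
  ff e := fun he => hS.ff _ (he (fun _ => Classical.arbitrary A))
  and φ ψ e := by
    constructor
    · intro he
      refine ⟨fun e1 => ?_, fun e2 => ?_⟩
      · have h1 := (ren_left hS _ _ _).1
          ((hS.and _ _ _).1 (he (Fin.append e1 (fun _ => Classical.arbitrary A)))).1
        rw [app_left] at h1
        exact h1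
      · have h1 := (ren_right hS _ _ _).1
          ((hS.and _ _ _).1 (he (Fin.append (fun _ => Classical.arbitrary A) e2))).2
        rw [app_right] at h1
        exact h1
    · rintro ⟨h1, h2⟩ e'
      exact (hS.and _ _ _).2 ⟨(ren_left hS _ _ _).2 (h1 _), (ren_right hS _ _ _).2 (h2 _)⟩
  or φ ψ e := by
    constructor
    · intro he
      by_contra hcon
      rw [not_or] at hcon
      obtain ⟨c1, c2⟩ := hcon
      unfold hU at c1 c2
      rw [not_forall] at c1 c2
      obtain ⟨e1, h1⟩ := c1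
      obtain ⟨e2, h2⟩ := c2
      rcases (hS.or _ _ _).1 (he (Fin.append e1 e2)) with h3 | h3
      · have h4 := (ren_left hS _ _ _).1 h3
        rw [app_left] at h4
        exact h1 h4
      · have h4 := (ren_right hS _ _ _).1 h3
        rw [app_right] at h4
        exact h2 h4
    · rintro (h1 | h1) e'
      · exact (hS.or _ _ _).2 (Or.inl ((ren_left hS _ _ _).2 (h1 _)))
      · exact (hS.or _ _ _).2 (Or.inr ((ren_right hS _ _ _).2 (h1 _)))
  supp φ := by
    obtain ⟨s, hs⟩ := hS.supp φ.2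
    refine ⟨s.toLeft, fun e e' he => forall_congr' fun e'' => hs _ _ (supp_next he e'')⟩

/-- conjunction of the first `N` formulas -/
def bigAnd (S : Syn' P) {Y : Type} (Φ : ℕ → P Y) : ℕ → P Y
  | 0 => S.tt
  | N + 1 => S.and (bigAnd S Φ N) (Φ N)

/-- disjunction of the first `N` formulas -/
def bigOr (S : Syn' P) {Y : Type} (Φ : ℕ → P Y) : ℕ → P Y
  | 0 => S.ff
  | N + 1 => S.or (bigOr S Φ N) (Φ N)

theorem bigAnd_iff (hS : Sem' S h) {Y : Type} (Φ : ℕ → P Y) (N : ℕ) (e : Y → A) :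
    h Y (bigAnd S Φ N) e ↔ ∀ i < N, h Y (Φ i) e := by
  induction N with
  | zero =>
    constructor
    · intro _ i hi
      exact absurd hi (Nat.not_lt_zero i)
    · intro _
      exact hS.tt e
  | succ N ih =>
    rw [bigAnd, hS.and, ih]
    constructor
    · rintro ⟨h1, h2⟩ i hi
      rcases Nat.lt_succ_iff_lt_or_eq.1 hi with h3 | h3
      · exact h1 i h3
      · rw [h3]
        exact h2
    · intro h1
      exact ⟨fun i hi => h1 i (Nat.lt_succ_of_lt hi), h1 N (Nat.lt_succ_self N)⟩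

theorem bigOr_iff (hS : Sem' S h) {Y : Type} (Φ : ℕ → P Y) (N : ℕ) (e : Y → A) :
    h Y (bigOr S Φ N) e ↔ ∃ i, i < N ∧ h Y (Φ i) e := by
  induction N with
  | zero =>
    constructor
    · intro h1
      exact absurd h1 (hS.ff e)
    · rintro ⟨i, hi, _⟩
      exact absurd hi (Nat.not_lt_zero i)
  | succ N ih =>
    rw [bigOr, hS.or, ih]
    constructor
    · rintro (⟨i, hi, h1⟩ | h1)
      · exact ⟨i, Nat.lt_succ_of_lt hi, h1⟩
      · exact ⟨N, Nat.lt_succ_self N, h1⟩
    · rintro ⟨i, hi, h1⟩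
      rcases Nat.lt_succ_iff_lt_or_eq.1 hi with h3 | h3
      · exact Or.inl ⟨i, h3, h1⟩
      · rw [h3] at h1
        exact Or.inr h1

end

section
variable {Q : Type → Type}

/-- the quantifier-free formulas -/
def base (S : Syn Q) : Syn' Q where
  ren := S.ren
  tt := S.tt
  ff := S.not S.tt
  and := S.and
  or := S.or
  cnt := S.cnt

theorem sem_base {S : Syn Q} {A : Type} {h : ∀ Y : Type, Q Y → (Y → A) → Prop} (hS : Sem S h) :
    Sem' (base S) h where
  ren := hS.ren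
  tt := hS.tt
  ff e := fun he => (hS.not S.tt e).1 he (hS.tt e)
  and := hS.and
  or := hS.or
  supp := hS.supp

/-- truth of the formulas in `Frag Q m` -/
def HF {A : Type} (h : ∀ Y : Type, Q Y → (Y → A) → Prop) (m : ℕ) (Y : Type) (φ : Frag Q m Y)
    (e : Y → A) : Prop := Holds h m φ e

theorem HF_odd {A : Type} (h : ∀ Y : Type, Q Y → (Y → A) → Prop) {m : ℕ} (hm : Odd (m + 1)) :
    HF h (m + 1) = hE (P := Frag Q m) (HF h m) := by
  funext Y φ e
  obtain ⟨b, φ⟩ := φ
  show (if Odd (m + 1) then _ else _) = _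
  rw [if_pos hm]
  rfl

theorem HF_even {A : Type} (h : ∀ Y : Type, Q Y → (Y → A) → Prop) {m : ℕ} (hm : ¬ Odd (m + 1)) :
    HF h (m + 1) = hU (P := Frag Q m) (HF h m) := by
  funext Y φ e
  obtain ⟨b, φ⟩ := φ
  show (if Odd (m + 1) then _ else _) = _
  rw [if_neg hm]
  rfl

theorem exists_syn (S : Syn Q) {A B : Type} [Nonempty A] [Nonempty B]
    {hA : ∀ Y : Type, Q Y → (Y → A) → Prop} {hB : ∀ Y : Type, Q Y → (Y → B) → Prop}
    (sA : Sem S hA) (sB : Sem S hB) (m : ℕ) :
    ∃ S' : Syn' (Frag Q m), Sem' S' (HF hA m) ∧ Sem' S' (HF hB m) := by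
  induction m with
  | zero => exact ⟨base S, sem_base sA, sem_base sB⟩
  | succ m ih =>
    obtain ⟨S', h1, h2⟩ := ih
    by_cases hm : Odd (m + 1)
    · refine ⟨nextSyn S', ?_, ?_⟩
      · rw [HF_odd hA hm]
        exact sem_hE h1
      · rw [HF_odd hB hm]
        exact sem_hE h2
    · refine ⟨nextSyn S', ?_, ?_⟩
      · rw [HF_even hA hm]
        exact sem_hU h1
      · rw [HF_even hB hm]
        exact sem_hU h2

/-- a formula in the variables `I ⊕ ℕ` depends on finitely many variables -/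
theorem exists_fin {P : Type → Type} {S : Syn' P} {A : Type} {h : ∀ Y : Type, P Y → (Y → A) → Prop}
    (hS : Sem' S h) {I : Type} (ψ : P (I ⊕ ℕ)) : ∃ (k : ℕ) (ρ : ℕ → Fin k),
      ∀ (a : I → A) (a' : ℕ → A), h _ ψ (Sum.elim a a') ↔
        h _ (S.ren (Sum.map id ρ) ψ) (Sum.elim a fun j => a' j) := by
  obtain ⟨s, hs⟩ := hS.supp ψ
  set k : ℕ := s.toRight.sup id + 1 with hk
  have hk' : ∀ j : ℕ, Sum.inr j ∈ s → j < k := by
    intro j hj
    have h1 : id j ≤ s.toRight.sup id := Finset.le_sup (Finset.mem_toRight.2 hj)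
    exact Nat.lt_succ_of_le h1
  have hk0 : 0 < k := Nat.succ_pos _
  refine ⟨k, fun j => if hj : j < k then ⟨j, hj⟩ else ⟨0, hk0⟩, fun a a' => ?_⟩
  rw [hS.ren, Sum.elim_comp_map, Function.comp_id]
  apply hs
  rintro (y | y) hy
  · rfl
  · have := hk' y hy
    simp [this]

end

open Classical in
theorem t_GAM : S_GAM := by
  intro Q S A B _ _ hA hB sA sB fA fB n
  induction n with
  | zero =>
    intro I _ a b H φ
    constructor
    · exact H φ
    · intro hb
      by_contra ha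
      have h1 := H (S.not φ) ((sA.not φ a).2 ha)
      exact (sB.not φ b).1 h1 hb
  | succ n ih =>
    intro I _ a b H
    obtain ⟨S', tA, tB⟩ := exists_syn S sA sB n
    haveI : Countable (Frag Q n (I ⊕ ℕ)) := S'.cnt _ inferInstance
    haveI : Nonempty (Frag Q n (I ⊕ ℕ)) := ⟨S'.tt⟩
    obtain ⟨Φ, hΦ⟩ := exists_surjective_nat (Frag Q n (I ⊕ ℕ))
    by_cases hodd : Odd (n + 1)
    · have hg : Game hA hB (n + 1) a b = ∀ a' : ℕ → A, ∃ b' : ℕ → B,
          Game hA hB n (Sum.elim a a') (Sum.elim b b') := by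
        show (if Odd (n + 1) then _ else _) = _
        rw [if_pos hodd]
      rw [hg]
      intro a'
      set Φ' : ℕ → Frag Q n (I ⊕ ℕ) := fun i =>
        if Holds hA n (Φ i) (Sum.elim a a') then Φ i else S'.tt with hΦ'
      have hT : ∀ i, HF hA n _ (Φ' i) (Sum.elim a a') := by
        intro i
        simp only [hΦ']
        by_cases hi : Holds hA n (Φ i) (Sum.elim a a')
        · rw [if_pos hi]
          exact hi
        · rw [if_neg hi]
          exact tA.tt _
      have hfin : ∀ N : ℕ, ∃ b' : ℕ → B, ∀ i < N,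
          (Holds hB n (Φ' i) (Sum.elim b b') ↔ (fun _ : ℕ => True) i) := by
        intro N
        have h1 : HF hA n _ (bigAnd S' Φ' N) (Sum.elim a a') :=
          (bigAnd_iff tA Φ' N _).2 (fun i _ => hT i)
        obtain ⟨k, ρ, hρ⟩ := exists_fin tA (bigAnd S' Φ' N)
        have h2 : HF hA (n + 1) I ⟨k, S'.ren (Sum.map id ρ) (bigAnd S' Φ' N)⟩ a := by
          rw [HF_odd hA hodd]
          exact ⟨_, (hρ a a').1 h1⟩
        have h3 : HF hB (n + 1) I ⟨k, S'.ren (Sum.map id ρ) (bigAnd S' Φ' N)⟩ b := H _ h2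
        rw [HF_odd hB hodd] at h3
        obtain ⟨e', he'⟩ := h3
        have h4 := (tB.ren _ _ _).1 he'
        rw [Sum.elim_comp_map, Function.comp_id] at h4
        exact ⟨e' ∘ ρ, fun i hi => iff_true_intro ((bigAnd_iff tB Φ' N _).1 h4 i hi)⟩
      obtain ⟨b', hb'⟩ := fB n I b Φ' (fun _ => True) hfin
      refine ⟨b', ih (I ⊕ ℕ) _ _ (fun φ hφ => ?_)⟩
      obtain ⟨i, rfl⟩ := hΦ φ
      have h5 := (hb' i).2 trivial
      simp only [hΦ'] at h5
      rw [if_pos hφ] at h5
      exact h5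
    · have hg : Game hA hB (n + 1) a b = ∀ b' : ℕ → B, ∃ a' : ℕ → A,
          Game hA hB n (Sum.elim a a') (Sum.elim b b') := by
        show (if Odd (n + 1) then _ else _) = _
        rw [if_neg hodd]
      rw [hg]
      intro b'
      set Φ' : ℕ → Frag Q n (I ⊕ ℕ) := fun i =>
        if Holds hB n (Φ i) (Sum.elim b b') then S'.ff else Φ i with hΦ'
      have hT : ∀ i, ¬ HF hB n _ (Φ' i) (Sum.elim b b') := by
        intro i
        simp only [hΦ']
        by_cases hi : Holds hB n (Φ i) (Sum.elim b b')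
        · rw [if_pos hi]
          exact tB.ff _
        · rw [if_neg hi]
          exact hi
      have hfin : ∀ N : ℕ, ∃ a' : ℕ → A, ∀ i < N,
          (Holds hA n (Φ' i) (Sum.elim a a') ↔ (fun _ : ℕ => False) i) := by
        intro N
        have h1 : ¬ HF hB n _ (bigOr S' Φ' N) (Sum.elim b b') := by
          rw [bigOr_iff tB Φ' N]
          rintro ⟨i, _, hi⟩
          exact hT i hi
        obtain ⟨k, ρ, hρ⟩ := exists_fin tB (bigOr S' Φ' N)
        have h2 : ¬ HF hB (n + 1) I ⟨k, S'.ren (Sum.map id ρ) (bigOr S' Φ' N)⟩ b := by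
          rw [HF_even hB hodd]
          intro h3
          exact h1 ((hρ b b').2 (h3 _))
        have h3 : ¬ HF hA (n + 1) I ⟨k, S'.ren (Sum.map id ρ) (bigOr S' Φ' N)⟩ a :=
          fun h4 => h2 (H _ h4)
        rw [HF_even hA hodd] at h3
        unfold hU at h3
        rw [not_forall] at h3
        obtain ⟨e', he'⟩ := h3
        have h4 : ¬ HF hA n _ (bigOr S' Φ' N) (Sum.elim a (e' ∘ ρ)) := by
          intro h5
          apply he'
          refine (tA.ren _ _ _).2 ?_
          rw [Sum.elim_comp_map, Function.comp_id]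
          exact h5
        refine ⟨e' ∘ ρ, fun i hi => iff_false_intro (fun h6 => h4 ?_)⟩
        exact (bigOr_iff tA Φ' N _).2 ⟨i, hi, h6⟩
      obtain ⟨a', ha'⟩ := fA n I a Φ' (fun _ => False) hfin
      refine ⟨a', ih (I ⊕ ℕ) _ _ (fun φ hφ => ?_)⟩
      obtain ⟨i, rfl⟩ := hΦ φ
      by_contra hcon
      have h5 := (ha' i).1
      simp only [hΦ'] at h5
      rw [if_neg hcon] at h5
      exact h5 hφ

end Pool.Agent.U618.AK.GAM
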